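import Pool.Agent.Lib.MP_947c47_gt.Mirror.Faces

set_option autoImplicit false

namespace Pool.Agent.Lib.MP_947c47_gt.Mirror

open Set Filter Topology
open scoped InnerProductSpace

/-- Reflection in the plane orthogonal to `e`. -/
noncomputable def rf (e : E3) : E3 ≃ₗᵢ[ℝ] E3 := (ℝ ∙ e)ᗮ.reflection

theorem rf_rf (e x : E3) : rf e (rf e x) = x := Submodule.reflection_reflection _ x

theorem norm_one_of_inner {e : E3} (he : ⟪e, e⟫_ℝ = 1) : ‖e‖ = 1 := by
  rw [real_inner_self_eq_norm_sq] at he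
  exact (pow_eq_one_iff_of_nonneg (norm_nonneg _) two_ne_zero).mp he

theorem rf_apply {e : E3} (he : ‖e‖ = 1) (u : E3) : rf e u = u - (2 * ⟪u, e⟫_ℝ) • e := by
  rw [rf, Submodule.reflection_orthogonal_apply, Submodule.reflection_singleton_apply, he,
    real_inner_comm]
  simp only [RCLike.ofReal_real_eq_id, id_eq, one_pow, div_one, neg_sub]
  rw [mul_smul, two_smul, two_smul]

theorem Frame.rf_pt {a b c : E3} (h : Frame a b c) (z : ℂ) :
    rf c (pt a b c z) = pt a b (-c) z := by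
  rw [rf_apply (norm_one_of_inner h.cc), h.pt_c]
  simp only [pt, mul_one, two_smul]
  abel

theorem Frame.rf_pt' {a b c : E3} (h : Frame a b c) (z : ℂ) :
    rf c (pt a b (-c) z) = pt a b c z := by
  rw [← h.rf_pt, rf_rf]

/-- The basic saddle function. -/
noncomputable def sad (K : Set E3) (a b c : E3) (z : ℂ) : ℝ :=
  sf K (pt a b c z) - sf K (pt a b (-c) z)

theorem sad_cont {K : Set E3} (hK : Body K) (a b c : E3) : Continuous (sad K a b c) :=
  (hK.continuous_sf.comp (continuous_pt a b c)).sub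
    (hK.continuous_sf.comp (continuous_pt a b (-c)))

theorem sad_sub {K : Set E3} (hK : Body K) (hP : PropP K) {a b c : E3} (h : Frame a b c) :
    Sub (sad K a b c) :=
  (wmp hK (rf c) (fun t => hP c t fun z => by simpa [z] using h.cc) (rf_rf c) h.neg3).congr
    fun z => by rw [h.rf_pt', sad]

theorem sad_sub' {K : Set E3} (hK : Body K) (hP : PropP K) {a b c : E3} (h : Frame a b c) :
    Sub (fun z => -sad K a b c z) :=
  (wmp hK (rf c) (fun t => hP c t fun z => by simpa [z] using h.cc) (rf_rf c) h).congr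
    fun z => by rw [h.rf_pt, sad]; ring

theorem sad_bdd {K : Set E3} (hK : Body K) (a b c : E3) : ∃ M, ∀ z, |sad K a b c z| ≤ M := by
  obtain ⟨R, hR0, hR⟩ := hK.exists_bound
  refine ⟨R * ‖c + c‖, fun z => ?_⟩
  have := hK.abs_sf_sub hR (pt a b c z) (pt a b (-c) z)
  have e : pt a b c z - pt a b (-c) z = c + c := by simp only [pt]; abel
  rwa [e] at this

theorem sad_lim {K : Set E3} (hK : Body K) {a b c p q : E3} (h : IsFace K a p q) :
    Lim (sad K a b c) (fun l => max ⟪p, l • b + c⟫_ℝ ⟪q, l • b + c⟫_ℝ -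
      max ⟪p, l • b + -c⟫_ℝ ⟪q, l • b + -c⟫_ℝ) := by
  intro L η hη
  obtain ⟨T, hT⟩ := face_limit hK h (L * ‖b‖ + ‖c‖) (η / 2) (by linarith)
  refine ⟨T, fun t ht l hl => ?_⟩
  have hb : ∀ c' : E3, ‖c'‖ = ‖c‖ → ‖l • b + c'‖ ≤ L * ‖b‖ + ‖c‖ := fun c' hc' => by
    refine le_trans (norm_add_le _ _) ?_
    rw [norm_smul, Real.norm_eq_abs, hc']
    gcongr
  have h1 := abs_lt.mp (hT t ht (l • b + c) (hb c rfl))
  have h2 := abs_lt.mp (hT t ht (l • b + -c) (hb (-c) (norm_neg c)))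
  simp only [sad, pt, add_assoc]
  exact abs_lt.mpr ⟨by linarith, by linarith⟩

theorem IsFace.inner_dir {K : Set E3} {a p q v : E3} (h : IsFace K a p q) {l : ℝ} (hl : 0 < l)
    (hq : q = p + l • v) : ⟪v, a⟫_ℝ = 0 := by
  have hqa := h.qa
  rw [hq, inner_add_left, real_inner_smul_left, h.pa] at hqa
  have : l * ⟪v, a⟫_ℝ = 0 := by linarith
  exact (mul_eq_zero.mp this).resolve_left hl.ne'

theorem rotA {K : Set E3} (hK : Body K) (hP : PropP K) {a p q v w b : E3} (h : IsFace K a p q)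
    {l : ℝ} (hl : 0 < l) (hq : q = p + l • v) (ha : ‖a‖ = 1) (hw : ‖w‖ = 1) (hb : ‖b‖ = 1)
    (haw : ⟪a, w⟫_ℝ = 0) (hab : ⟪a, b⟫_ℝ = 0) (hvw : 0 < ⟪v, w⟫_ℝ) (hvb : ⟪v, b⟫_ℝ = 0)
    (t c : ℝ) (hc : 0 < c) :
    sf K (t • a + c • w) - ⟪q, t • a + c • w⟫_ℝ = sf K (t • a + c • b) - ⟪q, t • a + c • b⟫_ℝ := by
  have hne1 : b ≠ w := by
    intro h; rw [h] at hvb; linarith
  have hne2 : -b ≠ w := by
    intro h; rw [← h, inner_neg_right, hvb] at hvw; linarith
  obtain ⟨m, e, hm, he, hwe⟩ := exists_dir hne1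
  obtain ⟨k, τ, hk, hτ, hwτ⟩ := exists_dir hne2
  have hme : m • e = w - b := by rw [hwe]; abel
  have hkτ : k • τ = w + b := by rw [hwτ]; abel
  have hae : ⟪a, e⟫_ℝ = 0 := by
    have := congrArg (fun x => ⟪a, x⟫_ℝ) hme
    simp only [real_inner_smul_right, inner_sub_right, haw, hab, sub_zero] at this
    exact (mul_eq_zero.mp this).resolve_left hm.ne'
  have haτ : ⟪a, τ⟫_ℝ = 0 := by
    have := congrArg (fun x => ⟪a, x⟫_ℝ) hkτ
    simp only [real_inner_smul_right, inner_add_right, haw, hab, add_zero] at this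
    exact (mul_eq_zero.mp this).resolve_left hk.ne'
  have hτe : ⟪τ, e⟫_ℝ = 0 := by
    have h1 : ⟪k • τ, m • e⟫_ℝ = 0 := by
      rw [hme, hkτ, real_inner_add_sub_eq_zero_iff, hw, hb]
    rw [real_inner_smul_left, real_inner_smul_right] at h1
    exact (mul_eq_zero.mp ((mul_eq_zero.mp h1).resolve_left hk.ne')).resolve_left hm.ne'
  have hF : Frame a τ e := frame_of_orth ha hτ he haτ hae hτe
  have hve : m * ⟪v, e⟫_ℝ = ⟪v, w⟫_ℝ := by
    rw [← real_inner_smul_right, hme, inner_sub_right, hvb, sub_zero]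
  have hvτ : k * ⟪v, τ⟫_ℝ = ⟪v, w⟫_ℝ := by
    rw [← real_inner_smul_right, hkτ, inner_add_right, hvb, add_zero]
  have hve0 : 0 < ⟪v, e⟫_ℝ := by
    by_contra hc'
    push Not at hc'
    nlinarith
  have hvτ0 : 0 < ⟪v, τ⟫_ℝ := by
    by_contra hc'
    push Not at hc'
    nlinarith
  have hrel : ⟪v, e⟫_ℝ = k / m * ⟪v, τ⟫_ℝ := by
    field_simp; linarith
  have hkm : 0 < k / m := div_pos hk hm
  obtain ⟨M, hM⟩ := sad_bdd hK a τ e
  have hqi : ∀ x : E3, ⟪q, x⟫_ℝ = ⟪p, x⟫_ℝ + l * ⟪v, x⟫_ℝ := fun x => by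
    rw [hq, inner_add_left, real_inner_smul_left]
  have hκ : 0 < l * ⟪v, τ⟫_ℝ := mul_pos hl hvτ0
  have key := cylinder (sad_cont hK a τ e) (sad_sub hK hP hF) (sad_sub' hK hP hF) hM
    (sad_lim hK (b := τ) (c := e) h) (l1 := -(k / m)) (l2 := k / m) (α := 2 * ⟪p, e⟫_ℝ)
    (β := 2 * ⟪q, e⟫_ℝ) (κ := l * ⟪v, τ⟫_ℝ) (by linarith) hκ
    (by rw [hqi, hrel]; ring)
    (fun x hx => by
      simp only [hqi, inner_add_right, real_inner_smul_right, inner_neg_right, hrel]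
      rw [max_eq_left, max_eq_left]
      · ring
      · nlinarith
      · nlinarith)
    (fun x hx hx' => by
      simp only [hqi, inner_add_right, real_inner_smul_right, inner_neg_right, hrel]
      rw [max_eq_right, max_eq_left]
      · ring
      · nlinarith
      · nlinarith)
    (fun x hx => by
      simp only [hqi, inner_add_right, real_inner_smul_right, inner_neg_right, hrel]
      rw [max_eq_right, max_eq_right]
      · ring
      · nlinarith
      · nlinarith) (t / (c * m / 2))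
  have hcm : 0 < c * m / 2 := by positivity
  have e1 : t • a + c • w = (c * m / 2) • pt a τ e ⟨t / (c * m / 2), k / m⟩ := by
    have : c • w = (c / 2) • (k • τ) + (c / 2) • (m • e) := by
      rw [hme, hkτ]; module
    rw [this]
    simp only [pt, smul_add, smul_smul]
    rw [mul_div_cancel₀ _ hcm.ne', add_assoc]
    congr 2
    · congr 1; field_simp
    · congr 1; ring
  have e2 : t • a + c • b = (c * m / 2) • pt a τ (-e) ⟨t / (c * m / 2), k / m⟩ := by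
    have : c • b = (c / 2) • (k • τ) + (c / 2) • (m • (-e)) := by
      rw [smul_neg m e, hme, hkτ]; module
    rw [this]
    simp only [pt, smul_add, smul_smul]
    rw [mul_div_cancel₀ _ hcm.ne', add_assoc]
    congr 2
    · congr 1; field_simp
    · congr 1; ring
  have e3 : ⟪q, t • a + c • w⟫_ℝ - ⟪q, t • a + c • b⟫_ℝ = c * m * ⟪q, e⟫_ℝ := by
    rw [← inner_sub_right, mul_assoc, ← real_inner_smul_right, ← real_inner_smul_right, hme]
    congr 1; module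
  have e4 : sf K (t • a + c • w) - sf K (t • a + c • b) = c * m * ⟪q, e⟫_ℝ := by
    rw [e1, e2, hK.sf_smul hcm.le, hK.sf_smul hcm.le, ← mul_sub]
    rw [sad] at key
    rw [key]; ring
  linarith

theorem rotB {K : Set E3} (hK : Body K) (hP : PropP K) {a p q v w b : E3} (h : IsFace K a p q)
    {l : ℝ} (hl : 0 < l) (hq : q = p + l • v) (hv : ‖v‖ = 1) (ha : ‖a‖ = 1) (hw : ‖w‖ = 1)
    (hb : ‖b‖ = 1) (haw : ⟪a, w⟫_ℝ = 0) (hab : ⟪a, b⟫_ℝ = 0) (hvb : ⟪v, b⟫_ℝ = 0)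
    (t c : ℝ) (hc : 0 < c) :
    sf K (t • a + c • w) - max ⟪p, t • a + c • w⟫_ℝ ⟪q, t • a + c • w⟫_ℝ =
      sf K (t • a + c • b) - ⟪q, t • a + c • b⟫_ℝ := by
  have hva := h.inner_dir hl hq
  have hqi : ∀ x : E3, ⟪q, t • a + c • x⟫_ℝ = ⟪p, t • a + c • x⟫_ℝ + l * (c * ⟪v, x⟫_ℝ) :=
    fun x => by
    rw [hq, inner_add_left, real_inner_smul_left, inner_add_right v, real_inner_smul_right,
      real_inner_smul_right, hva]
    ring
  rcases lt_trichotomy 0 ⟪v, w⟫_ℝ with h0 | h0 | h0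
  · rw [max_eq_right (by rw [hqi]; have := mul_pos hl (mul_pos hc h0); linarith)]
    exact rotA hK hP h hl hq ha hw hb haw hab h0 hvb t c hc
  · rw [max_eq_right (by rw [hqi, ← h0]; simp)]
    have hav : ⟪a, v⟫_ℝ = 0 := by rw [real_inner_comm, hva]
    have hvv : 0 < ⟪v, v⟫_ℝ := by rw [real_inner_self_eq_norm_sq, hv]; norm_num
    have h1 := rotA hK hP h hl hq ha hv hb hav hab hvv hvb t c hc
    have h2 := rotA hK hP h hl hq ha hv hw hav haw hvv h0.symm t c hc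
    linarith
  · rw [max_eq_left (by rw [hqi]; have := mul_pos hl (mul_pos hc (neg_pos.mpr h0)); linarith)]
    have h1 := rotA hK hP h.symm (v := -v) hl (by rw [hq, smul_neg]; abel) ha hw hb haw hab
      (by rw [inner_neg_left]; linarith) (by rw [inner_neg_left, hvb, neg_zero]) t c hc
    rw [h1, hqi, hvb]; ring

theorem rotC {K : Set E3} (hK : Body K) (hP : PropP K) {a p q : E3} (h : IsFace K a p q)
    (hpq : p ≠ q) (ha : ‖a‖ = 1) {u u' : E3} (h1 : ⟪u, a⟫_ℝ = ⟪u', a⟫_ℝ) (h2 : ‖u‖ = ‖u'‖) :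
    sf K u - max ⟪p, u⟫_ℝ ⟪q, u⟫_ℝ = sf K u' - max ⟪p, u'⟫_ℝ ⟪q, u'⟫_ℝ := by
  obtain ⟨l, v, hl, hv, hq⟩ := exists_dir hpq
  have hva := h.inner_dir hl hq
  obtain ⟨b, hF⟩ := exists_frame2 hv ha hva
  have hnorm : ∀ x : E3, ‖x - ⟪x, a⟫_ℝ • a‖ ^ 2 = ‖x‖ ^ 2 - ⟪x, a⟫_ℝ ^ 2 := fun x => by
    rw [norm_sub_sq_real, real_inner_smul_right, norm_smul, ha, Real.norm_eq_abs, mul_one, sq_abs]
    ring
  have hn : ‖u - ⟪u, a⟫_ℝ • a‖ = ‖u' - ⟪u', a⟫_ℝ • a‖ := by
    apply (sq_eq_sq₀ (norm_nonneg _) (norm_nonneg _)).mp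
    rw [hnorm, hnorm, h1, h2]
  have key : ∀ x : E3, x ≠ ⟪x, a⟫_ℝ • a → sf K x - max ⟪p, x⟫_ℝ ⟪q, x⟫_ℝ =
      sf K (⟪x, a⟫_ℝ • a + ‖x - ⟪x, a⟫_ℝ • a‖ • b) -
        ⟪q, ⟪x, a⟫_ℝ • a + ‖x - ⟪x, a⟫_ℝ • a‖ • b⟫_ℝ := by
    intro x hx
    obtain ⟨c, w, hc, hw, hxw⟩ := exists_dir hx.symm
    have e1 : x - ⟪x, a⟫_ℝ • a = c • w := by
      rw [sub_eq_iff_eq_add']; exact hxw
    have e2 : ‖x - ⟪x, a⟫_ℝ • a‖ = c := by
      rw [e1, norm_smul, hw, mul_one, Real.norm_eq_abs, abs_of_pos hc]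
    have haw : ⟪a, w⟫_ℝ = 0 := by
      have := congrArg (fun y => ⟪a, y⟫_ℝ) e1
      simp only [inner_sub_right, real_inner_smul_right, hF.bb, mul_one] at this
      rw [real_inner_comm x a, sub_self] at this
      exact (mul_eq_zero.mp this.symm).resolve_left hc.ne'
    have := rotB hK hP h hl hq hv ha hw (norm_one_of_inner hF.cc) haw hF.bc hF.ac ⟪x, a⟫_ℝ c hc
    rw [← hxw] at this
    rw [e2]; exact this
  by_cases hu : u = ⟪u, a⟫_ℝ • a
  · have hu' : u' = ⟪u', a⟫_ℝ • a := by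
      rw [← sub_eq_zero, ← norm_eq_zero, ← hn, norm_eq_zero, sub_eq_zero]; exact hu
    have : u = u' := hu.trans (by rw [h1]; exact hu'.symm)
    rw [this]
  · have hu' : u' ≠ ⟪u', a⟫_ℝ • a := by
      intro h'
      apply hu
      rw [← sub_eq_zero, ← norm_eq_zero, hn, norm_eq_zero, sub_eq_zero]; exact h'
    rw [key u hu, key u' hu', hn, h1]

end Pool.Agent.Lib.MP_947c47_gt.Mirror
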